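import Pool.Agent.Q43.RP.Low4
import Pool.Agent.Q43.RP.Tt
import Pool.Agent.Q43.RP.Ttw

/-!
# The Tate conjecture up to almost linear codimension for abelian varieties with a Frobenius element of
# almost any slope type

Let `K i` be a finite nonempty family of CM fields (nothing is assumed about their Galois groups, their
subfields or their number, and they may be isomorphic), each of degree at least `2 g`, of total degree
`2 N`, and `p` a prime number. A `p`-adic type `Φ i` of `K i` is a choice of one element out of each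
complex conjugate pair of embeddings of `K i` in the algebraic closure of `ℚ_p`; there are `2 ^ N`
families of types. Together with a function `M` (the same for all types, invariant under complex
conjugation, `0 < m₀ ≤ |M| ≤ m₁`) a type prescribes the slopes `(a + κ M) / 2` on `Φ i` and
`(a - κ M) / 2` outside of `Φ i` of a Weil number `π i` in `K i` with complex absolute values
`p ^ (a / 2)`. The most important case is `M = 1`, `κ = a`: ordinary reduction.

The theorem: if `10 ^ 13 * (2 m * (log (6 N)) ^ 4) ≤ (m₀ / m₁) ^ 4 * g` then for all but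

`2 ^ N * exp (- (m₀ / m₁) ^ 4 g / (10 ^ 13 * 2 m * log (6 N)))`

families of types the following holds for ALL abelian varieties `A` over finitely generated fields (of
dimension `N`, with arbitrary endomorphisms) which have at ONE place of good reduction a Frobenius
element whose characteristic polynomial is the product of the minimal polynomials of Weil numbers of
these slope types: for all `ℓ`, all `n` and all `1 ≤ j ≤ m`, the Tate classes of codimension `j` on
`A ^ n` are linear combinations of products of Tate classes of codimension one, which are classes of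
divisors (Tate, Zarhin, Faltings). So the Tate conjecture holds in codimension at most `m` for all
powers of `A`. The codimension `m` may be as large as `c g / (log g) ^ 4`, for one field of degree `2 g`
(second part: ordinary reduction, `M = 1`; then the exceptional proportion is at most
`exp (- 10 (log (6 g)) ^ 3)`).

For all codimensions this is false for many CM fields: for elementary abelian Galois groups about half
of all types have exotic classes of codimension `g / 2` (MP_90e98f_ag `AlmostLinearDegree`), so that the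
bound for the codimension is optimal up to logarithms. The statement is about arbitrary abelian
varieties; for abelian varieties of CM type and over finite fields the same bound is in
MP_640417_ag and MP_0f183b_ag `AlmostLinearCodimension`, the starting result with codimensions
`c √g` is for finite fields.

The proof: the condition on the slopes gives for every multiplicative relation between the Frobenius
eigenvalues a linear relation for the Galois translates of the slope function, a random half system;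
a restricted isometry property of random half systems (decoupling and chaining) excludes relations of
length at most `2 m`. Then the Lie algebra of the endomorphisms which annihilate the Tate classes in
at most `2 m` variables contains the diagonal elements of the symplectic Lie algebra, and by
semisimplicity it is a product of symplectic and general linear Lie algebras.

In the Lean statement `V` is the rational Tate module `V_ℓ (A)` with the action `ρ` of the Galois
group, `χ` the cyclotomic character, `ω` the Weil pairing of a polarization (`IsTateModule`, with the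
semisimplicity theorems of Tate, Zarhin and Faltings) and `γ` the Frobenius element.
-/

set_option autoImplicit false

namespace Pool.Agent.Results.MP_7b53ad_ag.AlmostLinearCodimension

open NumberField Module Pool.Agent.H204R3.CM Pool.Agent.H204R3.GP Pool.Agent.W516.FT
  Pool.Agent.TH776.FM Pool.Agent.H868R3.TwoOdd Pool.Agent.W548.Tt

/-- The Tate classes of codimension at most `m` on the powers of the abelian varieties with a Frobenius
element of the slope types `Φ` are generated by divisors: for all Weil numbers `π i` in `K i` with all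
complex absolute values `p ^ (a / 2)` and the slopes given by `M i`, `Φ i` and some common factor
`κ ≠ 0`, all prime numbers `ℓ` and all Tate modules with an element `γ` of the Galois group whose
characteristic polynomial is the product of the minimal polynomials of the `π i`. -/
def DivisorialForTypes (p : ℕ) [Fact p.Prime] {I : Type} [Fintype I] (K : I → Type)
    [∀ i, Field (K i)] [∀ i, NumberField (K i)] [∀ i, IsCMField (K i)]
    (M : ∀ i, (K i →+* PadicAlgCl p) → ℝ) (Φ : ∀ i, Set (K i →+* PadicAlgCl p)) (m : ℕ) : Prop :=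
  ∀ (a : ℕ) (π : ∀ i, K i) (κ : ℝ), κ ≠ 0 →
    (∀ i, ∀ φ : K i →+* ℂ, ‖φ (π i)‖ ^ 2 = (p : ℝ) ^ a) →
    (∀ i, HasSlopeType p (π i) a (M i) (Φ i) κ) →
    ∀ (ℓ : ℕ) [Fact ℓ.Prime] {V Γ : Type} [AddCommGroup V] [Module ℚ_[ℓ] V]
      [FiniteDimensional ℚ_[ℓ] V] [Group Γ] (ρ : Representation ℚ_[ℓ] Γ V) (χ : Γ →* ℚ_[ℓ])
      (ω : V →ₗ[ℚ_[ℓ]] V →ₗ[ℚ_[ℓ]] ℚ_[ℓ]), IsTateModule ρ χ ω →
      ∀ γ : Γ, χ γ = (p ^ a : ℕ) →
        (ρ γ).charpoly = (∏ i, minpoly ℚ (π i)).map (algebraMap ℚ ℚ_[ℓ]) →
        ∀ j : ℕ, 1 ≤ j → j ≤ m → GeneratedInCodimension ρ χ j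

theorem divisorial_of_words {p : ℕ} [Fact p.Prime] {I : Type} [Fintype I] {K : I → Type}
    [∀ i, Field (K i)] [∀ i, NumberField (K i)] [∀ i, IsCMField (K i)]
    {M : ∀ i, (K i →+* PadicAlgCl p) → ℝ} {Φ : ∀ i, Set (K i →+* PadicAlgCl p)} {m : ℕ}
    (h : Pool.Agent.Q43.RP.WordsUpTo p K M Φ (2 * m)) : DivisorialForTypes p K M Φ m := by
  intro a π κ hκ hweil hslope ℓ _ V Γ _ _ _ _ ρ χ ω hA γ hχ hγ j hj hjm
  have hsf := h a π κ hκ hweil hslope
  have hsf' : Pool.Agent.Q43.RP.ShortFree K ((p : ℚ) ^ a) π (2 * j) :=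
    fun n hn => hsf n (by omega)
  refine Pool.Agent.Q43.RP.codim_low K
    (pow_pos (by exact_mod_cast (Fact.out : p.Prime).pos) _) π (fun i φ => ?_) hj hsf' hA
    (γ := γ) ?_ ?_
  · rw [hweil]
    push_cast
    rfl
  · rw [hχ]
    push_cast
    rfl
  · rw [hγ, Polynomial.map_prod]

theorem ncard_div_le (p : ℕ) [Fact p.Prime] {I : Type} [Fintype I] [Nonempty I] (K : I → Type)
    [∀ i, Field (K i)] [∀ i, NumberField (K i)] [∀ i, IsCMField (K i)]
    (g N m : ℕ) (hg : ∀ i, 2 * g ≤ finrank ℚ (K i)) (hN : ∑ i, finrank ℚ (K i) = 2 * N)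
    (hm : 1 ≤ m) (M : ∀ i, (K i →+* PadicAlgCl p) → ℝ) (hM : ∀ i τ, M i (cbar τ) = M i τ)
    (m₀ m₁ : ℝ) (hm₀ : 0 < m₀) (hM₁ : ∀ i τ, m₀ ≤ |M i τ| ∧ |M i τ| ≤ m₁)
    (h : 10 ^ 13 * ((2 * m) * Real.log (6 * N) ^ 4) ≤ (m₀ / m₁) ^ 4 * g) :
    ({Φ : ∀ i, Set (K i →+* PadicAlgCl p) | (∀ i, IsPadicType p (Φ i)) ∧
      ¬ DivisorialForTypes p K M Φ m}.ncard : ℝ) ≤
      2 ^ N * Real.exp (-((m₀ / m₁) ^ 4 * g / (10 ^ 13 * ((2 * m) * Real.log (6 * N))))) := by
  have h1 := Pool.Agent.Q43.RP.ncard_ttw p K g N (2 * m) hg hN (by omega) M hM m₀ m₁ hm₀ hM₁ (by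
    push_cast
    exact h)
  push_cast at h1
  refine le_trans ?_ h1
  rw [Nat.cast_le]
  refine Set.ncard_le_ncard ?_ ((Set.toFinite
    {Φ : ∀ i, Set (K i →+* PadicAlgCl p) | ∀ i, IsPadicType p (Φ i)}).subset fun _ h => h.1)
  rintro Φ ⟨hΦ, hnot⟩
  exact ⟨hΦ, fun hW => hnot (divisorial_of_words hW)⟩

/-- **The Tate conjecture up to almost linear codimension for almost all slope types of all CM
fields.** -/
theorem result (p : ℕ) [Fact p.Prime] {I : Type} [Fintype I] [Nonempty I] (K : I → Type)
    [∀ i, Field (K i)] [∀ i, NumberField (K i)] [∀ i, IsCMField (K i)]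
    (g N m : ℕ) (hg : ∀ i, 2 * g ≤ finrank ℚ (K i)) (hN : ∑ i, finrank ℚ (K i) = 2 * N)
    (hm : 1 ≤ m) (M : ∀ i, (K i →+* PadicAlgCl p) → ℝ) (hM : ∀ i τ, M i (cbar τ) = M i τ)
    (m₀ m₁ : ℝ) (hm₀ : 0 < m₀) (hM₁ : ∀ i τ, m₀ ≤ |M i τ| ∧ |M i τ| ≤ m₁)
    (h : 10 ^ 13 * ((2 * m) * Real.log (6 * N) ^ 4) ≤ (m₀ / m₁) ^ 4 * g) :
    {Φ : ∀ i, Set (K i →+* PadicAlgCl p) | ∀ i, IsPadicType p (Φ i)}.ncard = 2 ^ N ∧
    ({Φ : ∀ i, Set (K i →+* PadicAlgCl p) | (∀ i, IsPadicType p (Φ i)) ∧
      ¬ DivisorialForTypes p K M Φ m}.ncard : ℝ) ≤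
      2 ^ N * Real.exp (-((m₀ / m₁) ^ 4 * g / (10 ^ 13 * ((2 * m) * Real.log (6 * N))))) ∧
    ∀ (q : ℕ) [Fact q.Prime] (F : Type) [Field F] [NumberField F] [IsCMField F] (d : ℕ),
      finrank ℚ F = 2 * d → 10 ^ 14 * ((2 * m) * Real.log (6 * d) ^ 4) ≤ d →
      ({Φ : Set (F →+* PadicAlgCl q) | IsPadicType q Φ ∧
        ¬ DivisorialForTypes q (fun _ : Unit => F) (fun _ _ => 1) (fun _ => Φ) m}.ncard : ℝ) ≤
        2 ^ d * Real.exp (-(10 * Real.log (6 * d) ^ 3)) := by
  refine ⟨Pool.Agent.Q43.RP.ncard_padic p K N hN,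
    ncard_div_le p K g N m hg hN hm M hM m₀ m₁ hm₀ hM₁ h, ?_⟩
  intro q _ F _ _ _ d hF hd
  have hd0 : d ≠ 0 := by
    rintro rfl
    have := finrank_pos (R := ℚ) (M := F)
    omega
  have h13 : 10 ^ 13 * ((2 * m) * Real.log (6 * d) ^ 4) ≤ (d : ℝ) := by
    have : 0 ≤ (2 * m) * Real.log (6 * d) ^ 4 := by positivity
    linarith
  have h1 := ncard_div_le q (fun _ : Unit => F) d d m (fun _ => hF.ge)
    (by rw [Fintype.sum_unique]; exact hF) hm (fun _ _ => 1) (fun _ _ => rfl) 1 1 one_pos
    (fun _ _ => by rw [abs_one]; exact ⟨le_rfl, le_rfl⟩) (by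
      rw [div_one, one_pow, one_mul]
      exact h13)
  rw [div_one, one_pow, one_mul] at h1
  have h2 : ({Φ : Set (F →+* PadicAlgCl q) | IsPadicType q Φ ∧
      ¬ DivisorialForTypes q (fun _ : Unit => F) (fun _ _ => 1) (fun _ => Φ) m}.ncard : ℝ) ≤
      ({Φ : ∀ _ : Unit, Set (F →+* PadicAlgCl q) | (∀ i, IsPadicType q (Φ i)) ∧
        ¬ DivisorialForTypes q (fun _ : Unit => F) (fun _ _ => 1) Φ m}.ncard : ℝ) := by
    rw [Nat.cast_le]
    refine Set.ncard_le_ncard_of_injOn (fun Φ => fun _ : Unit => Φ) ?_ ?_ (Set.toFinite _)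
    · rintro Φ ⟨h4, h5⟩
      exact ⟨fun _ => h4, h5⟩
    · intro Φ _ Φ' _ h4
      exact congrFun h4 ()
  have h3 := Pool.Agent.Q43.RP.exp_bound (g := d) (k := 2 * m) (by omega) hd0 (by
    push_cast
    exact hd)
  push_cast at h3
  exact h2.trans (h1.trans (mul_le_mul_of_nonneg_left h3 (by positivity)))

end Pool.Agent.Results.MP_7b53ad_ag.AlmostLinearCodimension
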