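import Mathlib
import Pool.Agent.Q271.ZC.ShortT

/-!
# The Tate conjecture for one power of an abelian variety over a finite field

An abelian variety `X` over the field with `q = p ^ a` elements is given by the characteristic
polynomial `P` of its Frobenius endomorphism (`IsFrob`, theorem of Honda and Tate). Its rational Tate
module, with coefficients in an algebraically closed field `K` of characteristic zero, is a `K`-vector
space `V` with a semisimple endomorphism `F` with characteristic polynomial `P`, and the alternating
`k`-forms on `V ^ n` are the cohomology group `H ^ k (X ^ n)`. The endomorphism ring `R` of `X` spans the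
centralizer of `F` (theorem of Tate). A `TateSystem` consists of subspaces of the cohomology groups of
the powers of `X` and is closed under cup products, pull-back by homomorphisms and push-forward by
projections; an example is the system of the spaces spanned by the classes of algebraic cycles.
`All F q n` says that all Tate classes on `X ^ n` belong to the system. So the theorem says that the
Tate conjecture for one explicit power of `X` implies the Tate conjecture for all powers. The
constant `C` is absolute.
-/

set_option autoImplicit false

namespace Pool.Agent.Results.MP_7b53ad_ag.OnePowerForAllPowers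

open Polynomial Pool.Agent.Q271.ZC

theorem result :
    ∃ C : ℝ, 0 < C ∧ ∀ (p a : ℕ) (P : ℤ[X]), p.Prime → 0 < a → IsFrob p a P →
      Neat P → ∀ g r : ℕ, P.natDegree = 2 * g →
      {Q : ℚ[X] | Q.Monic ∧ Irreducible Q ∧ Q ∣ P.map (Int.castRingHom ℚ)}.ncard = r →
      ∀ N : ℕ,
      Real.exp (C * min (Real.sqrt (r * g)) ((g : ℝ) ^ (2 / 3 : ℝ)) * Real.log (2 * g)) ≤ N →
      ∀ (K V : Type) [Field K] [CharZero K] [IsAlgClosed K] [AddCommGroup V] [Module K V]
        [FiniteDimensional K V] (F : V →ₗ[K] V) (R : AddSubgroup (V →ₗ[K] V)), IsTate P F R →
        ∀ 𝒜 : TateSystem (R : Set (V →ₗ[K] V)), 𝒜.All F (p ^ a) N → ∀ n, 𝒜.All F (p ^ a) n :=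
  tate_one

end Pool.Agent.Results.MP_7b53ad_ag.OnePowerForAllPowers
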