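import Pool.Agent.Q12.CasLie

/-!
# One quartic class decides what the algebraic classes cut out: all finitely generated fields

Let `A` be an abelian variety over a field `k` which is finitely generated over its prime field, of any
characteristic, and `ℓ` a prime number different from the characteristic. `V` is the rational Tate
module with the action `ρ` of the Galois group `Γ`, `χ` the cyclotomic character and `ω` the Weil
pairing of a polarization. The classes in `(H^1)^{⊗ 2 m}(m)`, a direct factor of `H^{2 m}(A^{2 m})(m)`,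
are the multilinear forms on `V` in `2 m` variables. `𝔤` is the `ℓ`-adic Lie algebra: the
endomorphisms of `V` which annihilate all Tate classes (`InTateLie`).

There is one explicit Tate class `Θ` of codimension two on `A ^ 4`, the Casimir class of `[𝔤, 𝔤]`. Let
`Θ` be a linear combination of classes of algebraic cycles; this is the case if the Tate conjecture is
true in codimension two for `A ^ 4`. Then:

* every endomorphism of `V` that annihilates the classes of all algebraic cycles (of all
  codimensions, on all powers of `A`) is the sum of an element of `[𝔤, 𝔤]` and of an element of the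
  centre of the algebra of the endomorphisms of `A` over the algebraic closure (with coefficients in
  `ℚ_ℓ`);
* if no simple factor of `A` over the algebraic closure is of type IV, then an endomorphism of `V`
  annihilates all classes of algebraic cycles if and only if it annihilates all Tate classes; and
  every compact group that acts continuously on `V` and fixes the classes of algebraic cycles
  fixes all Tate classes on all powers of `A`, after passing to a subgroup of finite index which does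
  not depend on the classes.

So for these abelian varieties the algebraic and the Tate classes of all codimensions on all powers
define, up to finite index, the same group, and this is decided by one class of codimension two.

Idea of the proof. An endomorphism `Z` that annihilates the classes of divisors is skew, and commutes
with the endomorphisms of `A` by the theorems of Tate, Zarhin and Faltings. If it annihilates `Θ`
then the commutator with `Z` is an inner derivation of `[𝔤, 𝔤]`, on which the trace form is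
nondegenerate; so `Z` differs from an element of `[𝔤, 𝔤]` by an element of the centre, which is
symmetric for `ω` if there are no factors of type IV, and therefore zero.
-/

namespace Pool.Agent.Results.MP_7b53ad_ag.QuarticClassCutsOut

open Module Pool.Agent.H204R3.GP
open Pool.Agent.Q50.FP (InTateLie derived IsCasimir)

variable {ℓ : ℕ} [Fact ℓ.Prime] {V : Type} [AddCommGroup V] [Module ℚ_[ℓ] V]

/-- The multilinear forms on `V` in `2 m` variables: the classes in `(H^1)^{⊗ 2 m}(m)`. -/
abbrev Form (V : Type) [AddCommGroup V] [Module ℚ_[ℓ] V] (m : ℕ) : Type :=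
  MultilinearMap ℚ_[ℓ] (fun _ : Fin m × Fin 2 => V) ℚ_[ℓ]

/-- The group `Γ` acts continuously on `V`, and `χ` is continuous. -/
structure IsContinuous {Γ : Type} [Group Γ] [TopologicalSpace Γ] (ρ : Representation ℚ_[ℓ] Γ V)
    (χ : Γ →* ℚ_[ℓ]) : Prop where
  action : ∀ (v : V) (f : Dual ℚ_[ℓ] V), Continuous fun s => f (ρ s v)
  character : Continuous χ

/-- `V` is the rational Tate module of an abelian variety over a finitely generated field, with the
action `ρ` of the Galois group, the cyclotomic character `χ` and the Weil pairing `ω`. The last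
property is the semisimplicity theorem (Tate, Zarhin, Mori, Faltings). -/
structure IsTateModule {Γ : Type} [Group Γ] [TopologicalSpace Γ] (ρ : Representation ℚ_[ℓ] Γ V)
    (χ : Γ →* ℚ_[ℓ]) (ω : V →ₗ[ℚ_[ℓ]] V →ₗ[ℚ_[ℓ]] ℚ_[ℓ]) : Prop where
  continuous : IsContinuous ρ χ
  alternating : ∀ v, ω v v = 0
  nondegenerate : ∀ u, (∀ v, ω u v = 0) → u = 0
  weil : ∀ s u v, ω (ρ s u) (ρ s v) = χ s * ω u v
  semisimple : FiniteIndexSemisimple ρ

/-- `S m` is the set of the classes in `(H^1)^{⊗ 2 m}(m)` of algebraic cycles. They are Tate classes,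
and in degree two the Tate classes are combinations of classes of divisors (Tate, Zarhin, Mori,
Faltings). -/
structure IsAlgebraic {Γ : Type} [Group Γ] (ρ : Representation ℚ_[ℓ] Γ V) (χ : Γ →* ℚ_[ℓ])
    (S : ∀ m : ℕ, Set (Form (ℓ := ℓ) V m)) : Prop where
  tate : ∀ m, ∀ φ ∈ S m, IsTateTensor ρ χ m φ
  divisors : ∀ φ : Form (ℓ := ℓ) V 1, IsTateTensor ρ χ 1 φ → φ ∈ Submodule.span ℚ_[ℓ] (S 1)

/-- `P` commutes with a subgroup of finite index of the Galois group: it is an endomorphism of `A`
over the algebraic closure, with coefficients in `ℚ_ℓ`. -/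
def IsEndo {Γ : Type} [Group Γ] (ρ : Representation ℚ_[ℓ] Γ V) (P : Module.End ℚ_[ℓ] V) : Prop :=
  ∃ Δ : Subgroup Γ, Δ.FiniteIndex ∧ ∀ s ∈ Δ, ∀ v, P (ρ s v) = ρ s (P v)

/-- `e` is in the centre of the algebra of these endomorphisms. -/
def IsCentral {Γ : Type} [Group Γ] (ρ : Representation ℚ_[ℓ] Γ V) (e : Module.End ℚ_[ℓ] V) : Prop :=
  IsEndo ρ e ∧ ∀ P, IsEndo ρ P → e * P = P * e

/-- No simple factor of `A` over the algebraic closure is of type IV: the Rosati involution is trivial
on the centre. -/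
def NoTypeFour {Γ : Type} [Group Γ] (ρ : Representation ℚ_[ℓ] Γ V)
    (ω : V →ₗ[ℚ_[ℓ]] V →ₗ[ℚ_[ℓ]] ℚ_[ℓ]) : Prop :=
  ∀ e, IsCentral ρ e → ∀ u v, ω (e u) v = ω u (e v)

/-- The endomorphism `Z` annihilates (as a derivation) all the forms in `S`. -/
def Annihilates (Z : Module.End ℚ_[ℓ] V) (S : ∀ m : ℕ, Set (Form (ℓ := ℓ) V m)) : Prop :=
  ∀ m, ∀ φ ∈ S m, ∀ v : Fin m × Fin 2 → V, ∑ j, φ (Function.update v j (Z (v j))) = 0

/-- **The Casimir class decides what the algebraic classes cut out.** -/
theorem result (ℓ : ℕ) [Fact ℓ.Prime] {V : Type} [AddCommGroup V] [Module ℚ_[ℓ] V]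
    [FiniteDimensional ℚ_[ℓ] V]
    {Γ : Type} [Group Γ] [TopologicalSpace Γ] [IsTopologicalGroup Γ] [CompactSpace Γ]
    (ρ : Representation ℚ_[ℓ] Γ V) (χ : Γ →* ℚ_[ℓ]) (ω : V →ₗ[ℚ_[ℓ]] V →ₗ[ℚ_[ℓ]] ℚ_[ℓ])
    (hA : IsTateModule ρ χ ω) :
    ∃ Θ : Form (ℓ := ℓ) V 2, IsCasimir ρ χ ω Θ ∧ IsTateTensor ρ χ 2 Θ ∧
      ∀ S : ∀ m : ℕ, Set (Form (ℓ := ℓ) V m), IsAlgebraic ρ χ S →
        Θ ∈ Submodule.span ℚ_[ℓ] (S 2) →
        (∀ Z, Annihilates Z S → ∃ s ∈ derived ρ χ, IsCentral ρ (Z - s)) ∧
        (NoTypeFour ρ ω →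
          (∀ Z, Annihilates Z S ↔ InTateLie ρ χ Z) ∧
          ∀ {Γ' : Type} [Group Γ'] [TopologicalSpace Γ'] [IsTopologicalGroup Γ']
            [CompactSpace Γ'] (ρ' : Representation ℚ_[ℓ] Γ' V) (χ' : Γ' →* ℚ_[ℓ]),
            IsContinuous ρ' χ' → (∀ m, ∀ φ ∈ S m, IsTateTensor ρ' χ' m φ) →
            ∃ Δ : Subgroup Γ', Δ.FiniteIndex ∧ ∀ s ∈ Δ, ∀ (m : ℕ) (φ : Form (ℓ := ℓ) V m),
              IsTateTensor ρ χ m φ → ∀ v, φ (fun j => ρ' s (v j)) = χ' s ^ m * φ v) := by
  have hsemi := Pool.Agent.Q50.FP.semi_lieT ρ χ ω hA.weil hA.nondegenerate hA.semisimple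
  have hρ := hA.continuous.action
  have hχ := hA.continuous.character
  refine ⟨Pool.Agent.Q50.FP.cas (Pool.Agent.H204R3.SP.lieT ρ χ) hsemi
    (Pool.Agent.Q50.FP.lieT_br ρ χ) ω, fun v => ?_, Pool.Agent.Q50.FP.cas_tate ρ χ ω hA.weil hsemi,
    fun S hS hΘ => ⟨fun Z hZ => ?_, fun hN => ?_⟩⟩
  · rw [Pool.Agent.Q50.FP.derived_eq]
    refine ⟨Pool.Agent.W516.KC2.EE (Pool.Agent.Q50.FP.der (Pool.Agent.H204R3.SP.lieT ρ χ))
      (Pool.Agent.Q50.FP.der_nondeg _ hsemi (Pool.Agent.Q50.FP.lieT_br ρ χ)) ω
      (v (0, 0)) (v (0, 1)), Pool.Agent.W516.KC2.EE_mem .., fun X hX =>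
      Pool.Agent.W516.KC2.EE_trace _ _ _ _ _ hX, ?_⟩
    exact Pool.Agent.W516.KC2.casimir_apply ..
  · rw [Pool.Agent.Q50.FP.derived_eq]
    obtain ⟨s, hs, h1, h2⟩ := Pool.Agent.Q12.CasLie.decompose ρ χ hρ hχ ω hA.weil hA.nondegenerate
      S hS.divisors hsemi hΘ hZ
    exact ⟨s, hs, h1, h2⟩
  · have key : ∀ Z, Annihilates Z S ↔ InTateLie ρ χ Z := fun Z =>
      ⟨fun hZ => Pool.Agent.Q12.CasLie.mem_lie ρ χ hρ hχ ω hA.weil hA.nondegenerate
        S hS.divisors hsemi hΘ (fun e he1 he2 => hN e ⟨he1, he2⟩) hZ,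
       fun hZ m φ hφ => hZ m φ (hS.tate m φ hφ)⟩
    refine ⟨key, ?_⟩
    intro Γ' _ _ _ _ ρ' χ' hc' hS'
    obtain ⟨Δ, hΔ, h⟩ := Pool.Agent.Q12.CasLie.fixes_of_kills ρ' χ' hc'.action hc'.character S hS'
    exact ⟨Δ, hΔ, fun s hs m φ hφ => h s hs m φ fun Z hZ => (key Z).1 hZ m φ hφ⟩

end Pool.Agent.Results.MP_7b53ad_ag.QuarticClassCutsOut
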