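import Mathlib
import Pool.Agent.Q43.HP.Spread

/-!
# The Tate conjecture for products of powers of abelian varieties over finite fields which are
separated by the Galois closures of their CM fields

Over an algebraic closure of the field with `p` elements each abelian variety is isogenous to the
reduction of an abelian variety of CM type (Honda, Tate). So an abelian variety over the field with
`q = p ^ a` elements is modelled by a finite product `X` of CM types `(E i, Φ i)` with Weil numbers
`π i ∈ E i` that satisfy the formula of Shimura and Taniyama (`RedAV`, starting files); its first
homology, with coefficients in an algebraically closed field `Ω` (`ℓ`-adic homology, tensored with an
algebraic closure of `ℚ_ℓ`), is `Ω ⊗ H_1(X, ℚ)`, on which the Frobenius endomorphism acts by `π`.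

Let `Z` be the product of finitely many abelian varieties `Z i` over a finite field, with any Newton
polygons. A factor `i` is called **separated** (`IsSeparatedFactor`) if

* (`large`) the degree of its CM field `E i` is twice an odd prime number, or the Galois group of `E i`
  is large in one of three ways: for each two complex embeddings `φ`, `ψ` which are neither equal nor
  complex conjugate some automorphism of `ℂ` fixes `φ` and conjugates `ψ`; or `E i` contains an
  imaginary quadratic field `K` and the stabilizer of each embedding is transitive on the other
  embeddings with the same restriction to `K`; or there is an odd function `s` on the set of embeddings,
  on which the automorphisms of `ℂ` act by signs (possibly `s = 0`), such that the odd functions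
  orthogonal to `s` are an irreducible representation over `ℚ` (for instance all cyclic CM fields of
  2-power degree have this property);
* (`closure`) for each other factor `k` which is not supersingular `E i` is not contained in the Galois
  closure of `E k`, or the Galois closures are different and the factor `k` has dimension at most
  three, or its Galois group is large in one of the senses above;
* (`norm`) for each imaginary quadratic field `K` contained in `E i` either `K` is in no CM field of
  another factor (not supersingular), and the norm of `π i` to `K` is not a power of the square root of
  `q`, up to a root of unity; or the powers of `π i` generate `E i` and the norm occurs in the relation
  of a Weil class of dimension at most five (or six, if `p` splits in `K`) on the product of the factor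
  `i` and factors in the set `S` below.

Suppose that each factor outside of a set `S` is supersingular or has dimension at least four and is
separated, and that the set `S` consists of factors with total dimension at most five without
exceptional pairs, or of factors of dimension at most three such that two of them with the same Galois
closure are isogenous (unless their CM fields are Galois over `ℚ` or one of them is supersingular).

Let `Y` be any abelian variety which is isogenous, over an algebraic closure, to a product of powers of
the factors of `Z` and of a supersingular abelian variety (`IsSeparatedAV`). **Then all Tate classes on
`Y`, over all finite extensions of the ground field and in all degrees, are algebraic**: they belong to
the smallest system of cohomology classes `Alg` (starting files) that contains the classes of degree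
zero, the Tate classes of degree two and the reductions of the split Weil classes of imaginary
quadratic fields on abelian fourfolds and sixfolds of CM type, and that is stable under linear
combinations, cup products, pull-backs along homomorphisms and push-forwards along projections; these
classes are algebraic by theorems of Tate and Markman.

For example, let `Z i` be simple abelian varieties of different prime dimensions `≥ 5` over a finite
field, of any Newton polygons, whose CM fields do not contain imaginary quadratic fields: the Tate
conjecture holds for all products of powers of these abelian varieties and of abelian varieties of
dimension at most three with different Galois closures.

The proof: a multiplicative relation between the Frobenius eigenvalues is a relation between the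
translates of the slope functions. Let `v` be the odd function on the embeddings of `E i` given by its
exponents. If the Galois group does not act on `v` by signs then for each element `ρ` of the Galois
group which acts nontrivially on `E i` there is a translate `v'` of `v` such that it does not act by
signs on `v' - v' ∘ ρ` (`Rigid`). So all factors `k` for which `E i` is not in the Galois closure of
`E k` are removed from the relation one after another; factors whose Galois closure is strictly larger
are removed by averaging. There remains a relation to which the other factors contribute functions of
constant absolute value on which the group acts by signs; the commutators remove them, and one finds
relations for the factor `i` alone, in contradiction to its large Galois group. So the Galois group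
acts on `v` by signs, and `v = 0` or `v` comes from an imaginary quadratic field.
-/

set_option autoImplicit false

namespace Pool.Agent.Results.MP_7b53ad_ag.SeparatedByClosures

open Pool.Agent.W495.TA Pool.Agent.TH117.BL Pool.Agent.Q43.HP

/-- All Tate classes `f` of degree `2 m` on `Y` over the extension of degree `s` of the ground field are
in `Alg`. -/
theorem result (p : ℕ) [Fact p.Prime] (ν : PadicAlgCl p ≃+* ℂ) (Y : RedAV p ν)
    (hY : IsSeparatedAV Y) (Ω : Type) [Field Ω] [IsAlgClosed Ω] [CharZero Ω] (s m : ℕ) (hs : 0 < s)
    (f : (TM Ω Y) [⋀^Fin (2 * m)]→ₗ[Ω] Ω) (hf : IsTateClass Ω Y s m f) :
    Alg Ω Y (Fin (2 * m)) f :=
  tate_separated Y hY s m hs f hf

end Pool.Agent.Results.MP_7b53ad_ag.SeparatedByClosures
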